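import Pool.Agent.W805.LR.Stm6
import Pool.Agent.W333.LR.GE

/-!
# PD2-BU: upper bound for the size of the blocks of the torus (`S_blkup`)
-/

set_option autoImplicit false

namespace Pool.Agent.W60.PD.BU

open Finset Equiv Pool.Agent.W805.LR Pool.Agent.W805.PD

/-- one-dimensional count -/
theorem one_dim_up {L i : ℕ} [NeZero L] (hL : 2 * 2 ^ i ≤ L) (v : ZMod L) :
    (∑ u : ZMod L, if u.val * 2 ^ i / L = v.val * 2 ^ i / L then (1 : ℝ) else 0) ≤
      2 * ((L : ℝ) / 2 ^ i) := by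
  classical
  have hL0 : 0 < L := NeZero.pos L
  have h2 : (0 : ℝ) < 2 ^ i := by positivity
  set m : ℕ := v.val * 2 ^ i / L with hm
  set A : ℕ := ⌈(m : ℝ) * L / 2 ^ i⌉₊ with hA
  set B : ℕ := ⌈((m : ℝ) + 1) * L / 2 ^ i⌉₊ with hB
  have hAr : (m : ℝ) * L / 2 ^ i ≤ A := Nat.le_ceil _
  have hBr : (B : ℝ) < ((m : ℝ) + 1) * L / 2 ^ i + 1 := Nat.ceil_lt_add_one (by positivity)
  have hcard : (univ.filter fun u : ZMod L => u.val * 2 ^ i / L = m).card ≤
      (Finset.Ico A B).card := by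
    refine Finset.card_le_card_of_injOn (fun u : ZMod L => u.val) ?_ ?_
    · intro u hu
      rw [Finset.mem_coe, Finset.mem_filter] at hu
      have h1 := hu.2
      rw [Nat.div_eq_iff hL0] at h1
      rw [Finset.mem_coe, Finset.mem_Ico]
      constructor
      · rw [hA, Nat.ceil_le, div_le_iff₀ h2]
        exact_mod_cast h1.1
      · rw [hB, Nat.lt_ceil, lt_div_iff₀ h2]
        have : u.val * 2 ^ i < (m + 1) * L := by
          rw [Nat.add_mul, one_mul]; omega
        exact_mod_cast this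
    · intro u _ u' _ h
      exact ZMod.val_injective L h
  have hAB : A ≤ B := Nat.ceil_mono (by
    apply div_le_div_of_nonneg_right _ h2.le
    nlinarith [(Nat.cast_nonneg L : (0 : ℝ) ≤ L)])
  rw [Nat.card_Ico] at hcard
  have hcard' : ((univ.filter fun u : ZMod L => u.val * 2 ^ i / L = m).card : ℝ) ≤ (B : ℝ) - A := by
    rw [← Nat.cast_sub hAB]
    exact_mod_cast hcard
  rw [Finset.sum_ite, Finset.sum_const_zero, add_zero, Finset.sum_const, nsmul_eq_mul, mul_one]
  refine hcard'.trans ?_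
  have h4 : (2 : ℝ) ≤ L / 2 ^ i := by
    rw [le_div_iff₀ h2]
    exact_mod_cast hL
  have h5 : ((m : ℝ) + 1) * L / 2 ^ i = (m : ℝ) * L / 2 ^ i + L / 2 ^ i := by ring
  linarith

/-- PD2-BU -/
theorem main : S_blkup := by
  classical
  intro d L i _ hL v
  have e : (fun u : Fin d → ZMod L => tblk i u = tblk i v)
      = fun u : Fin d → ZMod L => ∀ a, (u a).val * 2 ^ i / L = (v a).val * 2 ^ i / L := by
    funext u
    exact propext (Pool.Agent.W333.LR.tblk_eq_iff u v)
  rw [e, Pool.Agent.W333.LR.cnt_prod (fun a z => z.val * 2 ^ i / L = (v a).val * 2 ^ i / L)]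
  calc _ ≤ ∏ _a : Fin d, (2 * ((L : ℝ) / 2 ^ i)) :=
        Finset.prod_le_prod (fun a _ => Finset.sum_nonneg fun z _ => by split_ifs <;> norm_num)
          (fun a _ => one_dim_up hL (v a))
    _ = (2 * ((L : ℝ) / 2 ^ i)) ^ d := by
        rw [Finset.prod_const, Finset.card_univ, Fintype.card_fin]

end Pool.Agent.W60.PD.BU
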